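import Pool.Agent.H469.F4.CHG5

set_option autoImplicit false

/-!
# MP_9eae41_pr. The measures `ν_{T,β}` and their limit points charge every interval and have no atoms, for all `0 < β < 2`

Let `ν_{T,β}(dx) = (log T)^(-β²/4) |ζ(1/2 + ix + iωT)|^β dx` on `[0, 1]`, `ω` uniform on `[0, 1]`. Unconditionally, for
every subcritical `β`, `0 < β < 2`, and every real `1 < q ≤ 2` with `q β² < 4`:

* for `T` large and all `[a, b]` in `[0, 1]` with `b - a ≥ 1/log T`, the probability that `ν_{T,β}[a, b] > c (b - a)` is at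
  least `c (b - a)^(q β² / 4)`;
* for `T` large, `1/log T ≤ δ ≤ 1/2` and `η > 0` the probability that some interval of length at most `δ` in `[0, 1]` has
  mass greater than `η` is at most `C δ^((q - 1)(1 - q β² / 4)) / η^q`, where the exponent of `δ` is positive;
* if the random measures `ν_{T_n,β}` converge in distribution to a random measure `m` for some `T_n → ∞`, then the
  probability that `m[a, b] > c (b - a)` is at least `c (b - a)^(q β² / 4)` for all `[a, b]` in `[0, 1]`, and almost surely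
  `m` has no atoms.

Proof. The mean of the mass of an interval is at least `c (b - a)`, its moment of order `q` is at most
`C (b - a)^(q - q(q-1) β²/4)` (the moments of real order of the masses at all scales, hand-in
MP_f9aece_nt.MassMomentsAllScales, made uniform in the interval); truncation; Markov's inequality on a net of intervals.
The limit points are tested against continuous functionals of the integrals of trapezoids and tents.
-/

open Filter Topology MeasureTheory

namespace Pool.Agent.Results.MP_9eae41_pr.SubcriticalLimitPoints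

/-- `ν_{T,β}[a, b]` as a function of `ω`. -/
noncomputable def nu (β T a b ω : ℝ) : ℝ :=
  Real.log T ^ (-(β ^ 2 / 4)) * ∫ x in a..b, ‖riemannZeta (1 / 2 + Complex.I * x + Complex.I * (ω * T))‖ ^ β

/-- The probability of an event `E` for `ω` uniform on `[0, 1]`. -/
noncomputable def prob (E : ℝ → Prop) : ℝ := (volume {ω : ℝ | ω ∈ Set.Icc 0 1 ∧ E ω}).toReal

/-- The measure `g(x) dx` on the unit interval (zero if it is not finite). -/
noncomputable def density (g : ℝ → ℝ) : FiniteMeasure unitInterval :=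
  open Classical in
  if h : IsFiniteMeasure ((volume : Measure unitInterval).withDensity fun x => ENNReal.ofReal (g x)) then ⟨_, h⟩ else 0

/-- The random measure `ν_{T,β}` on `[0, 1]` as a function of `ω`. -/
noncomputable def nuMeasure (β T ω : ℝ) : FiniteMeasure unitInterval :=
  density fun x => Real.log T ^ (-(β ^ 2 / 4)) * ‖riemannZeta (1 / 2 + Complex.I * x + Complex.I * (ω * T))‖ ^ β

/-- The random measure `m` on the probability space `(Ω, P)` is a limit point in distribution of `ν_{T,β}`: there are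
`T_n → ∞` with `E G(ν_{T_n,β}) → E G(m)` for every bounded continuous `G` on the finite measures on `[0, 1]` with the weak
topology (the functions `G ∘ m` being measurable). -/
def IsLimitPoint {Ω : Type} [MeasurableSpace Ω] (β : ℝ) (P : Measure Ω) (m : Ω → FiniteMeasure unitInterval) : Prop :=
  ∃ T : ℕ → ℝ, Tendsto T atTop atTop ∧ ∀ G : BoundedContinuousFunction (FiniteMeasure unitInterval) ℝ,
    AEStronglyMeasurable (fun w => G (m w)) P ∧
    Tendsto (fun n => ∫ ω in (0 : ℝ)..1, G (nuMeasure β (T n) ω)) atTop (𝓝 (∫ w, G (m w) ∂P))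

lemma nu_eq (β T a b ω : ℝ) : nu β T a b ω = Real.log T ^ (-(β ^ 2 / 4)) * Pool.Agent.H469.F4.Yg β a b (ω * T) := by
  unfold nu Pool.Agent.H469.F4.Yg
  congr 1
  refine intervalIntegral.integral_congr fun x _ => ?_
  show ‖riemannZeta (1 / 2 + Complex.I * x + Complex.I * (ω * T))‖ ^ β = ‖riemannZeta (1 / 2 + ((ω * T + x : ℝ) : ℂ) * Complex.I)‖ ^ β
  congr 3
  push_cast
  ring

lemma lt_nu {β T a b ω v : ℝ} (hL : 0 < Real.log T) : v < nu β T a b ω ↔ v * Real.log T ^ (β ^ 2 / 4) < Pool.Agent.H469.F4.Yg β a b (ω * T) := by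
  rw [nu_eq, Real.rpow_neg hL.le, lt_inv_mul_iff₀ (by positivity), mul_comm]

lemma prob_eq {T : ℝ} (hT : 0 < T) (E : ℝ → Prop) (F : ℝ → Prop) (h : ∀ ω, E ω ↔ F (ω * T)) :
    prob E = T⁻¹ * (volume {t : ℝ | t ∈ Set.Icc 0 T ∧ F t}).toReal := by
  unfold prob
  have h1 : {ω : ℝ | ω ∈ Set.Icc 0 1 ∧ E ω} = (fun ω => ω * T) ⁻¹' {t : ℝ | t ∈ Set.Icc 0 T ∧ F t} := by
    ext ω
    constructor
    · rintro ⟨⟨h2, h3⟩, h4⟩
      refine ⟨⟨by positivity, ?_⟩, (h ω).1 h4⟩
      nlinarith
    · rintro ⟨⟨h2, h3⟩, h4⟩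
      refine ⟨⟨?_, ?_⟩, (h ω).2 h4⟩
      · exact nonneg_of_mul_nonneg_left h2 hT
      · exact le_of_mul_le_mul_right (by linarith) hT
  rw [h1, Real.volume_preimage_mul_right hT.ne', ENNReal.toReal_mul, ENNReal.toReal_ofReal (abs_nonneg _), abs_of_pos (by positivity)]

theorem result (β : ℝ) (hβ : 0 < β) (hβ2 : β < 2) :
    (∀ q : ℝ, 1 < q → q ≤ 2 → q * β ^ 2 < 4 →
      -- `T` large: every interval is charged
      (∃ c : ℝ, 0 < c ∧ ∀ᶠ T : ℝ in atTop, ∀ a b : ℝ, 0 ≤ a → b ≤ 1 → 1 / Real.log T ≤ b - a →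
        c * (b - a) ^ (q * β ^ 2 / 4) ≤ prob fun ω => c * (b - a) < nu β T a b ω) ∧
      -- `T` large: small intervals have small masses
      (0 < (q - 1) * (1 - q * β ^ 2 / 4) ∧ ∃ C : ℝ, 0 < C ∧ ∀ᶠ T : ℝ in atTop, ∀ δ η : ℝ, 1 / Real.log T ≤ δ → δ ≤ 1 / 2 → 0 < η →
        (prob fun ω => ∃ a b : ℝ, 0 ≤ a ∧ a ≤ b ∧ b ≤ 1 ∧ b - a ≤ δ ∧ η < nu β T a b ω) ≤
          C * δ ^ ((q - 1) * (1 - q * β ^ 2 / 4)) / η ^ q) ∧
      -- limit points charge every interval
      ∃ c : ℝ, 0 < c ∧ ∀ {Ω : Type} [MeasurableSpace Ω] (P : Measure Ω) [IsProbabilityMeasure P] (m : Ω → FiniteMeasure unitInterval),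
        IsLimitPoint β P m → ∀ a b : ℝ, 0 ≤ a → a < b → b ≤ 1 →
          ENNReal.ofReal (c * (b - a) ^ (q * β ^ 2 / 4)) ≤
            P {w | ENNReal.ofReal (c * (b - a)) < (m w : Measure unitInterval) {x | (x : ℝ) ∈ Set.Icc a b}}) ∧
    -- limit points have no atoms
    (∀ {Ω : Type} [MeasurableSpace Ω] (P : Measure Ω) [IsProbabilityMeasure P] (m : Ω → FiniteMeasure unitInterval),
      IsLimitPoint β P m → ∀ᵐ w ∂P, ∀ x : unitInterval, (m w : Measure unitInterval) {x} = 0) := by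
  refine ⟨fun q hq1 hq2 hq => ⟨?_, ⟨?_, ?_⟩, ?_⟩, ?_⟩
  · obtain ⟨c, hc, h⟩ := Pool.Agent.H469.F4.charge hβ hβ2 hq1 hq2 hq
    refine ⟨c, hc, ?_⟩
    filter_upwards [h, eventually_gt_atTop (0 : ℝ), Real.tendsto_log_atTop.eventually_ge_atTop 1] with T h hT hL1 a b ha hb hab
    have hL0 : 0 < Real.log T := by linarith
    have hab0 : 0 < b - a := lt_of_lt_of_le (by positivity) hab
    have h1 := h a (b - a) ha (by linarith) hab (by linarith)
    have e1 : a + (b - a) = b := by ring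
    rw [e1] at h1
    rw [prob_eq hT _ (fun t => c * (b - a) * Real.log T ^ (β ^ 2 / 4) < Pool.Agent.H469.F4.Yg β a b t) (fun ω => lt_nu hL0)]
    exact h1
  · apply mul_pos (by linarith)
    linarith
  · obtain ⟨C, hC, h⟩ := Pool.Agent.H469.F4.no_atoms hβ hβ2 hq1 hq2 hq
    refine ⟨C, hC, ?_⟩
    filter_upwards [h, eventually_gt_atTop (0 : ℝ), Real.tendsto_log_atTop.eventually_ge_atTop 1] with T h hT hL1 δ η hδ hδ1 hη
    have hL0 : 0 < Real.log T := by linarith
    have h1 := h δ η hδ hδ1 hη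
    rw [prob_eq hT _ (fun t => ∃ a b : ℝ, 0 ≤ a ∧ a ≤ b ∧ b ≤ 1 ∧ b - a ≤ δ ∧ η * Real.log T ^ (β ^ 2 / 4) < Pool.Agent.H469.F4.Yg β a b t)
      (fun ω => by simp only [lt_nu hL0])]
    have hηq : 0 < η ^ q := by positivity
    rw [le_div_iff₀ hηq]
    linarith
  · obtain ⟨c, hc, h⟩ := Pool.Agent.H469.F4.lim_charge hβ hβ2 hq1 hq2 hq
    exact ⟨c, hc, fun P _ m hm a b ha hab hb => h P m hm a b ha hab hb⟩
  · intro Ω _ P _ m hm
    exact Pool.Agent.H469.F4.lim_atoms hβ hβ2 P m hm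

end Pool.Agent.Results.MP_9eae41_pr.SubcriticalLimitPoints
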